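import Pool.Agent.helper32.TRI.Spec

/-!
# Project TRI (MP_561ff4_al), row LA4: the letters on the 28-dimensional module
-/

set_option autoImplicit false

open Finset

namespace Pool.Agent.TRI

open Pool.Agent.EXC

theorem LA4_add {K : Type} [Field K] (a : Lm C4 K) (t : K) (x y : Lm C4 K) : xe C4 a t (x + y) = xe C4 a t x + xe C4 a t y := by
  unfold xe
  rw [br_add_right, fm_add_right, smul_add, mul_add, add_smul]
  abel

theorem LA4_sum {K : Type} [Field K] (a : Lm C4 K) (t : K) {m : ℕ} (v : Fin m → K) (w : Fin m → Lm C4 K) :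
    xe C4 a t (∑ i, v i • w i) = ∑ i, v i • xe C4 a t (w i) := by
  have hsmul : ∀ (c : K) (x : Lm C4 K), xe C4 a t (c • x) = c • xe C4 a t x := by
    intro c x
    unfold xe
    rw [br_smul_right, fm_smul_right, smul_add, smul_add, smul_smul, smul_smul, smul_smul, mul_comm t c]
    congr 2
    ring
  let L : Lm C4 K →ₗ[K] Lm C4 K :=
    { toFun := xe C4 a t
      map_add' := LA4_add a t
      map_smul' := fun c x => hsmul c x }
  have h : L (∑ i, v i • w i) = ∑ i, v i • L (w i) := by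
    rw [map_sum]
    exact Finset.sum_congr rfl fun i _ => map_smul L _ _
  exact h

/-- pure linear algebra -/
theorem LA4_lin {F M : Type} [Field F] [AddCommGroup M] [Module F M] (e : Fin 24 → M) (v : Fin 24 → F)
    (m : Fin 24 → Fin 24) (c : Fin 24 → F) (w : M) (k' : Fin 24) :
    (∑ i, v i • (e i + (∑ j, if m j = i then c j • e j else 0) + (if i = k' then w else 0))) =
      ∑ j, (v j + c j * v (m j)) • e j + v k' • w := by
  simp only [smul_add, add_smul, Finset.sum_add_distrib, smul_ite, smul_zero, Finset.sum_ite_eq', Finset.mem_univ, if_true]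
  have h1 : ∑ i, v i • (∑ j, if m j = i then c j • e j else 0) = ∑ j, (c j * v (m j)) • e j := by
    have h2 : ∀ i, v i • (∑ j, if m j = i then c j • e j else 0) = ∑ j, if m j = i then (c j * v i) • e j else 0 := by
      intro i
      rw [Finset.smul_sum]
      refine Finset.sum_congr rfl fun j _ => ?_
      rw [smul_ite, smul_zero, smul_smul, mul_comm (v i)]
    rw [Finset.sum_congr rfl fun i _ => h2 i, Finset.sum_comm]
    refine Finset.sum_congr rfl fun j _ => ?_
    rw [Finset.sum_ite_eq]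
    simp
  rw [h1]

theorem LA4_ex : ∀ k i, ip C4 (lt4 k) (lt4 i) = -1 → ∃ j, (tb4 k j).2 ≠ 0 ∧ (tb4 k j).1 = i := by decide +kernel

theorem LA4_ev {K : Type} [Field K] (k : Fin 24) (h : Fin 4 → K) : EXC.ev C4 (lt4 k) h = ∑ i, (ec4 k i : K) * h i := by
  unfold EXC.ev
  rw [Finset.sum_comm]
  refine Finset.sum_congr rfl fun j _ => ?_
  rw [← Finset.sum_mul, ec4_spec, ip_sr_right]
  push_cast
  rfl

/-- if the letter does not move `E (lt4 i)` then the middle sum is `0` -/
theorem LA4_mid {K : Type} [Field K] (k i : Fin 24) (t : K) (h : ip C4 (lt4 k) (lt4 i) ≠ -1) :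
    (∑ j, if (tb4 k j).1 = i then (t * ((tb4 k j).2 : K)) • (E C4 (lt4 j) : Lm C4 K) else 0) = 0 := by
  refine Finset.sum_eq_zero fun j _ => ?_
  split_ifs with h1
  · rcases tb4_spec k j with h2 | h2
    · rw [h1] at h2
      exact absurd h2.2.1 h
    · rw [h2.1, Int.cast_zero, mul_zero, zero_smul]
  · rfl

theorem LA4_E {K : Type} [Field K] (k : Fin 24) (t : K) (i : Fin 24) :
    xe C4 (E C4 (lt4 k)) t (E C4 (lt4 i)) =
      ((E C4 (lt4 i) : Lm C4 K) + (∑ j, if (tb4 k j).1 = i then (t * ((tb4 k j).2 : K)) • (E C4 (lt4 j) : Lm C4 K) else 0) +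
        (if i = k + 12 then ((-t) • ht C4 (lt4 k) + (t * t) • E C4 (lt4 k)) else 0) : Lm C4 K) := by
  obtain ⟨a1, a2, a3, -, -⟩ := f_ACT 4 C4 K (lt4 k) t (lt4_root k).1
  have hk := (lt4_root k).1
  have hi := (lt4_root i).1
  have hb := ip_abs_le hk hi
  have hcase : 0 ≤ ip C4 (lt4 k) (lt4 i) ∨ ip C4 (lt4 k) (lt4 i) = -1 ∨ ip C4 (lt4 k) (lt4 i) = -2 := by omega
  have hik : i = k + 12 → ip C4 (lt4 k) (lt4 i) = -2 := by
    intro h
    rw [h, (lt4_root k).2, ip_neg_right, hk]
  rcases hcase with h | h | h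
  · have h1 : ¬ i = k + 12 := by
      intro h2
      have h3 := hik h2
      omega
    rw [if_neg h1, LA4_mid k i t (by omega), a1 _ hi h, add_zero, add_zero]
  · have h1 : ¬ i = k + 12 := by
      intro h2
      have h3 := hik h2
      omega
    obtain ⟨j0, hj0, hj1⟩ := LA4_ex k i h
    rw [if_neg h1, a2 _ hi h, add_zero]
    have hj2 : lt4 j0 = lt4 k + lt4 i ∧ sg C4 (lt4 k) (lt4 i) = (tb4 k j0).2 := by
      rcases tb4_spec k j0 with h2 | h2
      · rw [hj1] at h2
        exact h2.2.2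
      · exact absurd h2.1 hj0
    have h5 : (∑ j, if (tb4 k j).1 = i then (t * ((tb4 k j).2 : K)) • (E C4 (lt4 j) : Lm C4 K) else 0) =
        (t * ((tb4 k j0).2 : K)) • (E C4 (lt4 j0) : Lm C4 K) := by
      rw [Finset.sum_eq_single j0]
      · rw [if_pos hj1]
      · intro j _ hj
        split_ifs with h6
        · rcases tb4_spec k j with h2 | h2
          · rw [h6] at h2
            exact absurd (lt4_inj j j0 (h2.2.2.1.trans hj2.1.symm)) hj
          · rw [h2.1, Int.cast_zero, mul_zero, zero_smul]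
        · rfl
      · intro h6
        exact absurd (Finset.mem_univ _) h6
    rw [h5, hj2.1, hj2.2]
  · have h1 : lt4 i = -lt4 k := eq_neg_of_ip_eq_neg_two hk hi h
    have h2 : i = k + 12 := lt4_inj _ _ (h1.trans (lt4_root k).2.symm)
    rw [if_pos h2, LA4_mid k i t (by omega), add_zero, h1, a3, neg_smul, sq]
    abel

theorem LA4 : LA4_stmt := by
  intro K _ k t h v
  obtain ⟨-, -, -, a4, -⟩ := f_ACT 4 C4 K (lt4 k) t (lt4_root k).1
  unfold em4
  rw [LA4_add, LA4_sum, a4 h, LA4_ev]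
  simp only [LA4_E]
  rw [LA4_lin (fun i => (E C4 (lt4 i) : Lm C4 K)) v (fun j => (tb4 k j).1) (fun j => t * ((tb4 k j).2 : K))
    ((-t) • ht C4 (lt4 k) + (t * t) • E C4 (lt4 k)) (k + 12)]
  set S : K := ∑ i, (ec4 k i : K) * h i with hS
  have hcoef : ∀ j, (st4 k t (h, v)).2 j = (v j + t * ((tb4 k j).2 : K) * v (tb4 k j).1) +
      (if j = k then t * t * v (k + 12) - t * S else 0) := by
    intro j
    have hs : (if ec4 k 0 = 0 then 0 else (ec4 k 0 : K) * h 0) + (if ec4 k 1 = 0 then 0 else (ec4 k 1 : K) * h 1) +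
        (if ec4 k 2 = 0 then 0 else (ec4 k 2 : K) * h 2) + (if ec4 k 3 = 0 then 0 else (ec4 k 3 : K) * h 3) = S := by
      rw [hS, Fin.sum_univ_four]
      have h0 : ∀ i : Fin 4, (if ec4 k i = 0 then 0 else (ec4 k i : K) * h i) = (ec4 k i : K) * h i := by
        intro i
        split_ifs with h1
        · rw [h1, Int.cast_zero, zero_mul]
        · rfl
      rw [h0, h0, h0, h0]
    change v j + (if j = k then t * t * v (k + 12) - t * ((if ec4 k 0 = 0 then 0 else (ec4 k 0 : K) * h 0) +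
      (if ec4 k 1 = 0 then 0 else (ec4 k 1 : K) * h 1) + (if ec4 k 2 = 0 then 0 else (ec4 k 2 : K) * h 2) +
      (if ec4 k 3 = 0 then 0 else (ec4 k 3 : K) * h 3)) else if (tb4 k j).2 = 0 then 0 else t * ((tb4 k j).2 : K) * v (tb4 k j).1) = _
    rw [hs]
    by_cases hj : j = k
    · rw [if_pos hj, if_pos hj, hj, tb4_diag]
      simp
    · rw [if_neg hj, if_neg hj, add_zero]
      split_ifs with h1
      · rw [h1, Int.cast_zero, mul_zero, zero_mul]
      · rfl
  have hsum : ∑ j, (st4 k t (h, v)).2 j • (E C4 (lt4 j) : Lm C4 K) =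
      ∑ j, (v j + t * ((tb4 k j).2 : K) * v (tb4 k j).1) • (E C4 (lt4 j) : Lm C4 K) +
        (t * t * v (k + 12) - t * S) • (E C4 (lt4 k) : Lm C4 K) := by
    rw [Finset.sum_congr rfl fun j _ => by rw [hcoef j, add_smul], Finset.sum_add_distrib]
    refine congrArg (fun x => _ + x) ?_
    rw [Finset.sum_congr rfl fun j _ => by rw [ite_smul, zero_smul], Finset.sum_ite_eq', if_pos (Finset.mem_univ _)]
  have hh : (((st4 k t (h, v)).1, 0) : Lm C4 K) = (h, 0) - (t * v (k + 12)) • ht C4 (lt4 k) := by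
    refine Prod.ext ?_ ?_
    · funext i
      change h i - (if lt4 k i = 0 then 0 else t * v (k + 12) * (lt4 k i : K)) = h i - t * v (k + 12) * (lt4 k i : K)
      split_ifs with h1
      · rw [h1, Int.cast_zero, mul_zero]
      · rfl
    · change (0 : Rt C4 → K) = 0 - (t * v (k + 12)) • 0
      rw [smul_zero, sub_zero]
  rw [hsum, hh]
  have e1 : v (k + 12) • ((-t) • ht C4 (lt4 k) + (t * t) • (E C4 (lt4 k) : Lm C4 K)) =
      -((t * v (k + 12)) • ht C4 (lt4 k)) + (t * t * v (k + 12)) • (E C4 (lt4 k) : Lm C4 K) := by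
    rw [smul_add, smul_smul, smul_smul, ← neg_smul]
    refine congrArg₂ (fun x y => x + y) (congrArg (fun c : K => c • (ht C4 (lt4 k) : Lm C4 K)) (by ring))
      (congrArg (fun c : K => c • (E C4 (lt4 k) : Lm C4 K)) (by ring))
  rw [e1, sub_smul]
  abel

end Pool.Agent.TRI
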